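import Pool.Agent.H23.UC.Stm10

/-!
# Products of `n + 1` forms `Re (c w ^ N)`: the frequencies
-/

set_option autoImplicit false

open scoped ComplexConjugate

noncomputable section

namespace Pool.Agent.H24.UC

open Pool.Agent.H23.UC

/-- the hypotheses on the forms -/
structure Hyp (n : ℕ) (N : ℕ → ℕ) (c : ℕ → ℂ) : Prop where
  N0 : N 0 = 0
  c0 : c 0 = 1
  pos : ∀ a, 1 ≤ a → a ≤ n → 1 ≤ N a ∧ c a ≠ 0
  mono : ∀ a b, 1 ≤ a → a ≤ b → b ≤ n → N a ≤ N b
  two : ∀ a, 1 ≤ a → a + 2 ≤ n → N a < N (a + 2)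
  ind : ∀ a, 1 ≤ a → a + 1 ≤ n → N a = N (a + 1) → (conj (c a) * c (a + 1)).im ≠ 0

/-- the relation of degree `k` -/
def Rel (N : ℕ → ℕ) (c : ℕ → ℂ) (K : Finset (ℕ × ℕ)) (k : ℕ) (q : ℕ × ℕ → ℝ) : Prop :=
  ∀ w : ℂ, ∑ p ∈ K with N p.1 + N p.2 = k, q p * (fm N c p.1 w * fm N c p.2 w) = 0

lemma sub_I_ne (t : ℝ) : (t : ℂ) - Complex.I ≠ 0 := by
  intro h
  have := congrArg Complex.im h
  simp at this

lemma add_I_ne (t : ℝ) : (t : ℂ) + Complex.I ≠ 0 := by
  intro h
  have := congrArg Complex.im h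
  simp at this

lemma circle_infinite : {w : ℂ | conj w * w = 1}.Infinite := by
  refine Set.infinite_of_injective_forall_mem
    (f := fun t : ℝ => ((t : ℂ) + Complex.I) / (t - Complex.I)) ?_ ?_
  · intro s t h
    have h1 : ((s : ℂ) + Complex.I) / (s - Complex.I) = ((t : ℂ) + Complex.I) / (t - Complex.I) := h
    rw [div_eq_div_iff (sub_I_ne s) (sub_I_ne t)] at h1
    have h2 := congrArg Complex.im h1
    simp at h2
    linarith
  · intro t
    show conj (((t : ℂ) + Complex.I) / (t - Complex.I)) * (((t : ℂ) + Complex.I) / (t - Complex.I)) = 1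
    rw [map_div₀, map_add, map_sub, Complex.conj_I, Complex.conj_ofReal, sub_neg_eq_add,
      ← sub_eq_add_neg, div_mul_div_comm, mul_comm]
    exact div_self (mul_ne_zero (add_I_ne t) (sub_I_ne t))

lemma fm_mul {N : ℕ → ℕ} {c : ℕ → ℂ} (a : ℕ) {w : ℂ} (hw : conj w * w = 1) :
    2 * (fm N c a w : ℂ) * w ^ N a = c a * w ^ (2 * N a) + conj (c a) := by
  unfold fm
  have h1 : (2 : ℂ) * (((c a * w ^ N a).re : ℝ) : ℂ) = c a * w ^ N a + conj (c a * w ^ N a) := by
    rw [Complex.add_conj]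
    push_cast
    rfl
  rw [h1, map_mul, map_pow]
  have h2 : (conj w) ^ N a * w ^ N a = 1 := by rw [← mul_pow, hw, one_pow]
  rw [two_mul, pow_add]
  linear_combination conj (c a) * h2

lemma coeffs {N : ℕ → ℕ} {c : ℕ → ℂ} {K : Finset (ℕ × ℕ)} {k : ℕ} {q : ℕ × ℕ → ℝ}
    (h : Rel N c K k q) (j : ℕ) :
    ∑ p ∈ K with N p.1 + N p.2 = k, (q p : ℂ) *
      ((if j = 2 * k then c p.1 * c p.2 else 0) + (if j = 0 then conj (c p.1) * conj (c p.2) else 0) +
        (if j = 2 * N p.2 then conj (c p.1) * c p.2 else 0) +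
        (if j = 2 * N p.1 then c p.1 * conj (c p.2) else 0)) = 0 := by
  classical
  let P : Polynomial ℂ := ∑ p ∈ K with N p.1 + N p.2 = k, Polynomial.C (q p : ℂ) *
    (Polynomial.C (c p.1 * c p.2) * Polynomial.X ^ (2 * k) +
      Polynomial.C (conj (c p.1) * conj (c p.2)) +
      Polynomial.C (conj (c p.1) * c p.2) * Polynomial.X ^ (2 * N p.2) +
      Polynomial.C (c p.1 * conj (c p.2)) * Polynomial.X ^ (2 * N p.1))
  have hP : P = 0 := by
    refine Polynomial.eq_zero_of_infinite_isRoot P (circle_infinite.mono fun w hw => ?_)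
    have hw' : conj w * w = 1 := hw
    show P.eval w = 0
    have h1 : P.eval w = ∑ p ∈ K with N p.1 + N p.2 = k,
        (4 * w ^ k) * ((q p * (fm N c p.1 w * fm N c p.2 w) : ℝ) : ℂ) := by
      simp only [P, Polynomial.eval_finsetSum]
      refine Finset.sum_congr rfl fun p hp => ?_
      have hk : N p.1 + N p.2 = k := (Finset.mem_filter.1 hp).2
      simp only [Polynomial.eval_mul, Polynomial.eval_add, Polynomial.eval_C, Polynomial.eval_pow,
        Polynomial.eval_X]
      have e1 := fm_mul (N := N) (c := c) p.1 hw'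
      have e2 := fm_mul (N := N) (c := c) p.2 hw'
      have e3 : (2 * (fm N c p.1 w : ℂ) * w ^ N p.1) * (2 * (fm N c p.2 w : ℂ) * w ^ N p.2) =
          (c p.1 * w ^ (2 * N p.1) + conj (c p.1)) * (c p.2 * w ^ (2 * N p.2) + conj (c p.2)) := by
        rw [e1, e2]
      have e4 : w ^ (2 * k) = w ^ (2 * N p.1) * w ^ (2 * N p.2) := by
        rw [← pow_add, ← hk, mul_add]
      have e5 : w ^ k = w ^ N p.1 * w ^ N p.2 := by rw [← hk, pow_add]
      rw [e4, e5]
      push_cast
      linear_combination (-(q p : ℂ)) * e3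
    rw [h1, ← Finset.mul_sum, ← Complex.ofReal_sum, h w]
    simp
  have h2 := congrArg (fun Q => Polynomial.coeff Q j) hP
  simp only [P, Polynomial.finsetSum_coeff, Polynomial.coeff_C_mul, Polynomial.coeff_add,
    Polynomial.coeff_X_pow, Polynomial.coeff_C, Polynomial.coeff_zero] at h2
  refine Eq.trans (Finset.sum_congr rfl fun p _ => ?_) h2
  congr 1
  simp only [mul_ite, mul_one, mul_zero]

section

variable {n : ℕ} {N : ℕ → ℕ} {c : ℕ → ℂ} {K : Finset (ℕ × ℕ)} {k : ℕ} {q : ℕ × ℕ → ℝ}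

lemma Hyp.le (H : Hyp n N c) {a b : ℕ} (hab : a ≤ b) (hb : b ≤ n) : N a ≤ N b := by
  rcases Nat.eq_zero_or_pos a with h | h
  · rw [h, H.N0]; exact Nat.zero_le _
  · exact H.mono a b h hab hb

lemma Hyp.eq_zero (H : Hyp n N c) {a : ℕ} (ha : a ≤ n) (h : N a = 0) : a = 0 := by
  by_contra h0
  have := (H.pos a (by omega) ha).1
  omega

lemma Hyp.close (H : Hyp n N c) {a b : ℕ} (ha : 1 ≤ a) (hb : b ≤ n) (h : N a = N b) :
    b ≤ a + 1 := by
  by_contra h0
  have h1 := H.two a ha (by omega)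
  have h2 := H.mono (a + 2) b (by omega) (by omega) hb
  omega

/-- the mixed frequencies -/
lemma mix (H : Hyp n N c) (hK : ∀ p ∈ K, p.1 ≤ p.2 ∧ p.2 ≤ n) (h : Rel N c K k q) {i j : ℕ}
    (hi : 1 ≤ i) (hij : i < j) (hk : i + j = k) :
    ∑ p ∈ K with N p.1 = i ∧ N p.2 = j, (q p : ℂ) * (conj (c p.1) * c p.2) = 0 := by
  have h1 := coeffs h (2 * j)
  rw [← h1, Finset.sum_filter, Finset.sum_filter]
  refine Finset.sum_congr rfl fun p hp => ?_
  obtain ⟨hp1, hp2⟩ := hK p hp
  have hle := H.le hp1 hp2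
  by_cases h2 : N p.1 = i ∧ N p.2 = j
  · rw [if_pos h2, if_pos (by omega), if_neg (by omega), if_neg (by omega), if_pos (by omega),
      if_neg (by omega)]
    ring
  · rw [if_neg h2]
    by_cases h3 : N p.1 + N p.2 = k
    · rw [if_pos h3, if_neg (by omega), if_neg (by omega), if_neg (by omega), if_neg (by omega)]
      ring
    · rw [if_neg h3]

/-- the frequency zero -/
lemma diag (H : Hyp n N c) (hK : ∀ p ∈ K, p.1 ≤ p.2 ∧ p.2 ≤ n) (h : Rel N c K k q) {i : ℕ}
    (hi : 1 ≤ i) (hk : i + i = k) :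
    ∑ p ∈ K with N p.1 = i ∧ N p.2 = i, (q p : ℂ) *
      (conj (c p.1) * c p.2 + c p.1 * conj (c p.2)) = 0 := by
  have h1 := coeffs h (2 * i)
  rw [← h1, Finset.sum_filter, Finset.sum_filter]
  refine Finset.sum_congr rfl fun p hp => ?_
  obtain ⟨hp1, hp2⟩ := hK p hp
  have hle := H.le hp1 hp2
  by_cases h2 : N p.1 = i ∧ N p.2 = i
  · rw [if_pos h2, if_pos (by omega), if_neg (by omega), if_neg (by omega), if_pos (by omega),
      if_pos (by omega)]
    ring
  · rw [if_neg h2]
    by_cases h3 : N p.1 + N p.2 = k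
    · rw [if_pos h3, if_neg (by omega), if_neg (by omega), if_neg (by omega), if_neg (by omega)]
      ring
    · rw [if_neg h3]

/-- the pure frequency -/
lemma pure (H : Hyp n N c) (hK : ∀ p ∈ K, p.1 ≤ p.2 ∧ p.2 ≤ n) (h : Rel N c K k q)
    (hk : 1 ≤ k) :
    ∑ p ∈ K with N p.1 + N p.2 = k, (q p : ℂ) *
      (c p.1 * c p.2 + if N p.2 = k then conj (c p.1) * c p.2 else 0) = 0 := by
  have h1 := coeffs h (2 * k)
  refine Eq.trans (Finset.sum_congr rfl fun p hp => ?_) h1
  obtain ⟨hpK, hpk⟩ := Finset.mem_filter.1 hp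
  obtain ⟨hp1, hp2⟩ := hK p hpK
  have hle := H.le hp1 hp2
  by_cases h2 : N p.2 = k
  · rw [if_pos h2, if_pos rfl, if_neg (by omega), if_pos (by omega), if_neg (by omega)]
    ring
  · rw [if_neg h2, if_pos rfl, if_neg (by omega), if_neg (by omega), if_neg (by omega)]
    ring

lemma two_ind (H : Hyp n N c) {a : ℕ} (ha : 1 ≤ a) (han : a + 1 ≤ n) (hN : N a = N (a + 1))
    {x y : ℝ} (h : (x : ℂ) * c a + y * c (a + 1) = 0) : x = 0 ∧ y = 0 := by
  have h1 := H.ind a ha han hN
  have h2 : (x : ℂ) * (conj (c a) * c a) + y * (conj (c a) * c (a + 1)) = 0 := by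
    linear_combination conj (c a) * h
  have h3 := congrArg Complex.im h2
  have h4 : (conj (c a) * c a).im = 0 := by
    rw [Complex.mul_im, Complex.conj_re, Complex.conj_im]
    ring
  rw [Complex.add_im, Complex.im_ofReal_mul, Complex.im_ofReal_mul, h4, mul_zero, zero_add,
    Complex.zero_im] at h3
  have hy : y = 0 := (mul_eq_zero.1 h3).resolve_right h1
  refine ⟨?_, hy⟩
  rw [hy, Complex.ofReal_zero, zero_mul, add_zero] at h
  exact Complex.ofReal_eq_zero.1 ((mul_eq_zero.1 h).resolve_right (H.pos a ha (by omega)).2)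

/-- the coefficients of a class are independent over the reals -/
lemma ind_class (H : Hyp n N c) {M : ℕ} {B : Finset ℕ} {x : ℕ → ℝ}
    (hB : ∀ b ∈ B, 1 ≤ b ∧ b ≤ n ∧ N b = M) (h : ∑ b ∈ B, (x b : ℂ) * c b = 0) :
    ∀ b ∈ B, x b = 0 := by
  have hclose : ∀ b ∈ B, ∀ b' ∈ B, b' ≤ b + 1 := fun b hb b' hb' =>
    H.close (hB b hb).1 (hB b' hb').2.1 ((hB b hb).2.2.trans (hB b' hb').2.2.symm)
  intro b hb
  by_cases h1 : ∃ b' ∈ B, b' ≠ b
  · obtain ⟨b', hb', hne⟩ := h1
    have key : ∀ u ∈ B, u + 1 ∈ B → x u = 0 ∧ x (u + 1) = 0 := by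
      intro u hu hu1
      have hBe : B = {u, u + 1} := by
        ext v
        constructor
        · intro hv
          have h2 := hclose v hv (u + 1) hu1
          have h3 := hclose u hu v hv
          rw [Finset.mem_insert, Finset.mem_singleton]
          omega
        · intro hv
          rw [Finset.mem_insert, Finset.mem_singleton] at hv
          rcases hv with rfl | rfl <;> assumption
      rw [hBe, Finset.sum_pair (by omega)] at h
      exact two_ind H (hB u hu).1 (hB (u + 1) hu1).2.1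
        ((hB u hu).2.2.trans (hB (u + 1) hu1).2.2.symm) h
    have h2 := hclose b hb b' hb'
    have h3 := hclose b' hb' b hb
    rcases (by omega : b' = b + 1 ∨ b = b' + 1) with h4 | h4
    · rw [h4] at hb'
      exact (key b hb hb').1
    · rw [h4] at hb ⊢
      exact (key b' hb' hb).2
  · push Not at h1
    have hBe : B = {b} := by
      ext v
      rw [Finset.mem_singleton]
      exact ⟨fun hv => h1 v hv, fun hv => hv ▸ hb⟩
    rw [hBe, Finset.sum_singleton] at h
    exact Complex.ofReal_eq_zero.1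
      ((mul_eq_zero.1 h).resolve_right (H.pos b (hB b hb).1 (hB b hb).2.1).2)

/-- the complex version -/
lemma ind_class2 (H : Hyp n N c) {M : ℕ} {B : Finset ℕ} {u : ℕ → ℂ}
    (hB : ∀ b ∈ B, 1 ≤ b ∧ b ≤ n ∧ N b = M) (h1 : ∑ b ∈ B, c b * u b = 0)
    (h2 : ∑ b ∈ B, conj (c b) * u b = 0) : ∀ b ∈ B, u b = 0 := by
  have h3 : ∑ b ∈ B, c b * conj (u b) = 0 := by
    have := congrArg conj h2
    rw [map_sum, map_zero] at this
    rw [← this]
    refine Finset.sum_congr rfl fun b _ => ?_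
    rw [map_mul, Complex.conj_conj]
  have h4 : ∑ b ∈ B, (((u b).re : ℝ) : ℂ) * c b = 0 := by
    have h5 : (2 : ℂ) * ∑ b ∈ B, (((u b).re : ℝ) : ℂ) * c b = 0 := by
      rw [← add_zero (0 : ℂ)]
      nth_rewrite 1 [← h1]
      rw [← h3, ← Finset.sum_add_distrib, Finset.mul_sum]
      refine Finset.sum_congr rfl fun b _ => ?_
      have := Complex.add_conj (u b)
      push_cast at this
      linear_combination (-c b) * this
    exact (mul_eq_zero.1 h5).resolve_left two_ne_zero
  have h6 : ∑ b ∈ B, (((u b).im : ℝ) : ℂ) * c b = 0 := by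
    have h5 : (2 * Complex.I : ℂ) * ∑ b ∈ B, (((u b).im : ℝ) : ℂ) * c b = 0 := by
      rw [← sub_zero (0 : ℂ)]
      nth_rewrite 1 [← h1]
      rw [← h3, ← Finset.sum_sub_distrib, Finset.mul_sum]
      refine Finset.sum_congr rfl fun b _ => ?_
      have := Complex.sub_conj (u b)
      push_cast at this
      linear_combination (-c b) * this
    exact (mul_eq_zero.1 h5).resolve_left (mul_ne_zero two_ne_zero Complex.I_ne_zero)
  intro b hb
  exact Complex.ext (ind_class H hB h4 b hb) (ind_class H hB h6 b hb)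

/-- pairs with a common first index -/
lemma low1 (H : Hyp n N c) (hK : ∀ p ∈ K, p.1 ≤ p.2 ∧ p.2 ≤ n) (h : Rel N c K k q) {a b : ℕ}
    (hp : (a, b) ∈ K) (ha : 1 ≤ a) (hab : N a < N b) (hk : N a + N b = k)
    (hu : ∀ p ∈ K, N p.1 = N a → N p.2 = N b → p.1 = a) : q (a, b) = 0 := by
  classical
  have han : a ≤ n := (hK _ hp).1.trans (hK _ hp).2
  have hpos := H.pos a ha han
  have h1 := mix H hK h hpos.1 hab hk
  have hmem : ∀ p ∈ K.filter (fun p => N p.1 = N a ∧ N p.2 = N b), p.1 = a := fun p hp =>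
    hu p (Finset.mem_filter.1 hp).1 (Finset.mem_filter.1 hp).2.1 (Finset.mem_filter.1 hp).2.2
  have h2 : ∑ b' ∈ (K.filter fun p => N p.1 = N a ∧ N p.2 = N b).image Prod.snd,
      (q (a, b') : ℂ) * c b' = 0 := by
    have h3 : conj (c a) * ∑ b' ∈ (K.filter fun p => N p.1 = N a ∧ N p.2 = N b).image Prod.snd,
        (q (a, b') : ℂ) * c b' = 0 := by
      rw [Finset.mul_sum, Finset.sum_image]
      · refine Eq.trans (Finset.sum_congr rfl fun p hp => ?_) h1
        have h4 := hmem p hp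
        obtain ⟨p1, p2⟩ := p
        simp only at h4
        subst h4
        ring
      · intro p hp p' hp' hpp
        exact Prod.ext ((hmem p hp).trans (hmem p' hp').symm) hpp
    exact (mul_eq_zero.1 h3).resolve_left ((map_ne_zero _).2 hpos.2)
  refine ind_class H (M := N b) (x := fun b' => q (a, b')) ?_ h2 b ?_
  · intro b' hb'
    obtain ⟨p, hp, rfl⟩ := Finset.mem_image.1 hb'
    have h5 := Finset.mem_filter.1 hp
    have h6 := hmem p hp
    have h7 := hK p h5.1
    exact ⟨by omega, h7.2, h5.2.2⟩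
  · exact Finset.mem_image.2 ⟨(a, b), Finset.mem_filter.2 ⟨hp, rfl, rfl⟩, rfl⟩

/-- pairs with a common second index -/
lemma low2 (H : Hyp n N c) (hK : ∀ p ∈ K, p.1 ≤ p.2 ∧ p.2 ≤ n) (h : Rel N c K k q) {a b : ℕ}
    (hp : (a, b) ∈ K) (ha : 1 ≤ a) (hab : N a < N b) (hk : N a + N b = k)
    (hu : ∀ p ∈ K, N p.1 = N a → N p.2 = N b → p.2 = b) : q (a, b) = 0 := by
  classical
  have han : a ≤ n := (hK _ hp).1.trans (hK _ hp).2
  have hbn : b ≤ n := (hK _ hp).2
  have hpos := H.pos a ha han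
  have hposb := H.pos b (ha.trans (hK _ hp).1) hbn
  have h1 := mix H hK h hpos.1 hab hk
  have hmem : ∀ p ∈ K.filter (fun p => N p.1 = N a ∧ N p.2 = N b), p.2 = b := fun p hp =>
    hu p (Finset.mem_filter.1 hp).1 (Finset.mem_filter.1 hp).2.1 (Finset.mem_filter.1 hp).2.2
  have h2 : ∑ a' ∈ (K.filter fun p => N p.1 = N a ∧ N p.2 = N b).image Prod.fst,
      (q (a', b) : ℂ) * c a' = 0 := by
    have h3 : c b * ∑ a' ∈ (K.filter fun p => N p.1 = N a ∧ N p.2 = N b).image Prod.fst,
        (q (a', b) : ℂ) * conj (c a') = 0 := by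
      rw [Finset.mul_sum, Finset.sum_image]
      · refine Eq.trans (Finset.sum_congr rfl fun p hp => ?_) h1
        have h4 := hmem p hp
        obtain ⟨p1, p2⟩ := p
        simp only at h4
        subst h4
        ring
      · intro p hp p' hp' hpp
        exact Prod.ext hpp ((hmem p hp).trans (hmem p' hp').symm)
    have h4 := congrArg conj ((mul_eq_zero.1 h3).resolve_left hposb.2)
    rw [map_sum, map_zero] at h4
    refine Eq.trans (Finset.sum_congr rfl fun a' _ => ?_) h4
    rw [map_mul, Complex.conj_conj, Complex.conj_ofReal]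
  refine ind_class H (M := N a) (x := fun a' => q (a', b)) ?_ h2 a ?_
  · intro a' ha'
    obtain ⟨p, hp, rfl⟩ := Finset.mem_image.1 ha'
    have h5 := Finset.mem_filter.1 hp
    have h7 := hK p h5.1
    refine ⟨?_, h7.1.trans h7.2, h5.2.1⟩
    by_contra h8
    have h9 : p.1 = 0 := by omega
    have h10 := h5.2.1
    rw [h9, H.N0] at h10
    omega
  · exact Finset.mem_image.2 ⟨(a, b), Finset.mem_filter.2 ⟨hp, rfl, rfl⟩, rfl⟩

/-- squares -/
lemma low3 (H : Hyp n N c) (hK : ∀ p ∈ K, p.1 ≤ p.2 ∧ p.2 ≤ n) (h : Rel N c K k q) {a : ℕ}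
    (hp : (a, a) ∈ K) (ha : 1 ≤ a) (hk : N a + N a = k)
    (hu : ∀ p ∈ K, N p.1 = N a → N p.2 = N a → p = (a, a)) : q (a, a) = 0 := by
  classical
  have han : a ≤ n := (hK _ hp).2
  have hpos := H.pos a ha han
  have h1 := diag H hK h hpos.1 hk
  have hset : (K.filter fun p => N p.1 = N a ∧ N p.2 = N a) = {(a, a)} := by
    ext p
    rw [Finset.mem_filter, Finset.mem_singleton]
    exact ⟨fun h => hu p h.1 h.2.1 h.2.2, fun h => by rw [h]; exact ⟨hp, rfl, rfl⟩⟩
  rw [hset, Finset.sum_singleton] at h1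
  have h2 : (conj (c a) * c a + c a * conj (c a)) ≠ 0 := by
    have h3 : conj (c a) * c a + c a * conj (c a) = 2 * (c a * conj (c a)) := by ring
    rw [h3]
    exact mul_ne_zero two_ne_zero (mul_ne_zero hpos.2 ((map_ne_zero _).2 hpos.2))
  exact Complex.ofReal_eq_zero.1 ((mul_eq_zero.1 h1).resolve_right h2)

/-- the pairs `(0, b)` -/
lemma zero (H : Hyp n N c) (hK : ∀ p ∈ K, p.1 ≤ p.2 ∧ p.2 ≤ n) (h : Rel N c K k q) {b : ℕ}
    (hp : (0, b) ∈ K) (hk : N b = k)
    (hu : ∀ p ∈ K, 1 ≤ p.1 → N p.1 + N p.2 = k → q p = 0) : q (0, b) = 0 := by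
  classical
  have hbn : b ≤ n := (hK _ hp).2
  rcases Nat.eq_zero_or_pos b with hb | hb
  · subst hb
    have h1 := h 1
    have hk0 : k = 0 := by rw [← hk, H.N0]
    have hset : (K.filter fun p => N p.1 + N p.2 = k) = {(0, 0)} := by
      ext p
      rw [Finset.mem_filter, Finset.mem_singleton]
      constructor
      · rintro ⟨h2, h3⟩
        have h4 := hK p h2
        exact Prod.ext (H.eq_zero (h4.1.trans h4.2) (by omega)) (H.eq_zero h4.2 (by omega))
      · intro h2
        rw [h2]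
        exact ⟨hp, by rw [H.N0, hk0]⟩
    rw [hset, Finset.sum_singleton] at h1
    simpa [fm, H.c0] using h1
  · have hk1 : 1 ≤ k := by
      rw [← hk]
      exact (H.pos b hb hbn).1
    have h1 := pure H hK h hk1
    have h2 : ∑ p ∈ K with p.1 = 0 ∧ N p.2 = k, (2 : ℂ) * ((q (0, p.2) : ℂ) * c p.2) = 0 := by
      rw [← h1, Finset.sum_filter, Finset.sum_filter]
      refine Finset.sum_congr rfl fun p hp => ?_
      by_cases h3 : p.1 = 0
      · obtain ⟨p1, p2⟩ := p
        simp only at h3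
        subst h3
        by_cases h4 : N p2 = k
        · have h5 : N (0, p2).1 + N (0, p2).2 = k := by
            show N 0 + N p2 = k
            rw [H.N0, zero_add, h4]
          rw [if_pos ⟨rfl, h4⟩, if_pos h5, if_pos h4]
          show _ = (q (0, p2) : ℂ) * (c 0 * c p2 + conj (c 0) * c p2)
          rw [H.c0, map_one]
          ring
        · have h5 : ¬ N (0, p2).1 + N (0, p2).2 = k := by
            show ¬ N 0 + N p2 = k
            rw [H.N0, zero_add]
            exact h4
          rw [if_neg (fun h => h4 h.2), if_neg h5]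
      · rw [if_neg (fun h => h3 h.1)]
        by_cases h4 : N p.1 + N p.2 = k
        · rw [if_pos h4, hu p hp (by omega) h4]
          simp
        · rw [if_neg h4]
    have h3 : ∑ b' ∈ (K.filter fun p => p.1 = 0 ∧ N p.2 = k).image Prod.snd,
        (q (0, b') : ℂ) * c b' = 0 := by
      rw [← Finset.mul_sum] at h2
      have h4 := (mul_eq_zero.1 h2).resolve_left two_ne_zero
      rw [Finset.sum_image]
      · exact h4
      · intro p hp p' hp' hpp
        exact Prod.ext ((Finset.mem_filter.1 hp).2.1.trans (Finset.mem_filter.1 hp').2.1.symm) hpp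
    refine ind_class H (M := k) (x := fun b' => q (0, b')) ?_ h3 b ?_
    · intro b' hb'
      obtain ⟨p, hp, rfl⟩ := Finset.mem_image.1 hb'
      have h5 := Finset.mem_filter.1 hp
      have h7 := hK p h5.1
      refine ⟨?_, h7.2, h5.2.2⟩
      by_contra h8
      have h9 : p.2 = 0 := by omega
      have h10 := h5.2.2
      rw [h9, H.N0] at h10
      omega
    · exact Finset.mem_image.2 ⟨(0, b), Finset.mem_filter.2 ⟨hp, rfl, hk⟩, rfl⟩

/-- four products with the class of highest order -/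
lemma top (H : Hyp n N c) {m : ℕ} (hn : n = m + 2) (ht : N (m + 1) = N (m + 2))
    (hK : ∀ p ∈ K, p.1 ≤ p.2 ∧ p.2 ≤ n)
    (hK1 : ∀ a, 1 ≤ a → a ≤ m + 1 → (a, m + 1) ∈ K) (hK2 : ∀ a, 1 ≤ a → a ≤ m + 2 → (a, m + 2) ∈ K)
    (h : Rel N c K k q) {a : ℕ} (ha : 1 ≤ a) (ham : a ≤ m) (hk : N a + N (m + 2) = k)
    (hu : ∀ p ∈ K, 1 ≤ p.1 → p.2 ≤ m → N p.1 + N p.2 = k → q p = 0) :
    q (a, m + 1) = 0 ∧ q (a, m + 2) = 0 := by
  classical
  have hpos := H.pos a ha (by omega)
  have hlt : N m < N (m + 2) := H.two m (by omega) (by omega)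
  have hat : N a < N (m + 2) := (H.le ham (by omega)).trans_lt hlt
  have hle2 : ∀ b, b ≤ m → N b ≤ N m := fun b hb => H.le hb (by omega)
  have hlen : ∀ b, b ≤ n → N b ≤ N (m + 2) := fun b hb => H.le (by omega) (by omega)
  -- the class of `a`
  let A : Finset ℕ := (Finset.Icc 1 m).filter fun a' => N a' = N a
  have hA : ∀ a', a' ∈ A ↔ (1 ≤ a' ∧ a' ≤ m) ∧ N a' = N a := fun a' => by
    rw [Finset.mem_filter, Finset.mem_Icc]
  have hset : (K.filter fun p => N p.1 = N a ∧ N p.2 = N (m + 2)) =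
      A ×ˢ ({m + 1, m + 2} : Finset ℕ) := by
    ext p
    rw [Finset.mem_filter, Finset.mem_product, hA, Finset.mem_insert, Finset.mem_singleton]
    constructor
    · rintro ⟨h1, h2, h3⟩
      have h4 := hK p h1
      have h5 : ¬ p.2 ≤ m := fun h => by
        have := hle2 _ h
        omega
      have h6 : 1 ≤ p.1 := by
        by_contra h7
        rw [show p.1 = 0 by omega, H.N0] at h2
        omega
      have h7 : p.1 ≤ m := by
        by_contra h8
        rcases (by omega : p.1 = m + 1 ∨ p.1 = m + 2) with h9 | h9 <;> rw [h9] at h2 <;> omega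
      exact ⟨⟨⟨h6, h7⟩, h2⟩, by omega⟩
    · obtain ⟨p1, p2⟩ := p
      rintro ⟨⟨⟨h1, h2⟩, h3⟩, h4⟩
      simp only at h1 h2 h3 h4 ⊢
      rcases h4 with h4 | h4
      · subst h4
        exact ⟨hK1 p1 h1 (by omega), h3, ht⟩
      · subst h4
        exact ⟨hK2 p1 h1 (by omega), h3, rfl⟩
  have h1 := mix H hK h hpos.1 hat hk
  have h2 := pure H hK h (k := k) (by omega)
  have h3 : ∑ p ∈ K with N p.1 = N a ∧ N p.2 = N (m + 2), (q p : ℂ) * (c p.1 * c p.2) = 0 := by
    rw [← h2, Finset.sum_filter, Finset.sum_filter]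
    refine Finset.sum_congr rfl fun p hp => ?_
    obtain ⟨hp1, hp2⟩ := hK p hp
    have hle := hlen p.2 hp2
    by_cases h4 : N p.1 = N a ∧ N p.2 = N (m + 2)
    · rw [if_pos h4, if_pos (by omega), if_neg (by omega), add_zero]
    · rw [if_neg h4]
      by_cases h5 : N p.1 + N p.2 = k
      · rw [if_pos h5]
        have h6 : p.2 ≤ m := by
          by_contra h7
          have h8 : N p.2 = N (m + 2) := by
            rcases (by omega : p.2 = m + 1 ∨ p.2 = m + 2) with h9 | h9 <;> rw [h9]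
            exact ht
          omega
        have h7 : 1 ≤ p.1 := by
          by_contra h8
          rw [show p.1 = 0 by omega, H.N0] at h5
          omega
        rw [hu p hp h7 h6 h5]
        simp
      · rw [if_neg h5]
  rw [hset, Finset.sum_product] at h1 h3
  have hne : m + 1 ≠ m + 2 := by omega
  simp only [Finset.sum_pair hne] at h1 h3
  have key := ind_class2 H (B := A) (M := N a)
    (u := fun a' => (q (a', m + 1) : ℂ) * c (m + 1) + (q (a', m + 2) : ℂ) * c (m + 1 + 1))
    (fun b hb => by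
      have := (hA b).1 hb
      exact ⟨this.1.1, by omega, this.2⟩)
    (by
      refine Eq.trans (Finset.sum_congr rfl fun b _ => ?_) h3
      ring)
    (by
      refine Eq.trans (Finset.sum_congr rfl fun b _ => ?_) h1
      ring) a ((hA a).2 ⟨⟨ha, ham⟩, rfl⟩)
  exact two_ind H (by omega) (by omega) ht key

/-- the three products of the class of highest order -/
lemma top3 (H : Hyp n N c) {m : ℕ} (hn : n = m + 2) (ht : N (m + 1) = N (m + 2))
    (hK : ∀ p ∈ K, p.1 ≤ p.2 ∧ p.2 ≤ n)
    (hK1 : ∀ a, 1 ≤ a → a ≤ m + 1 → (a, m + 1) ∈ K) (hK2 : ∀ a, 1 ≤ a → a ≤ m + 2 → (a, m + 2) ∈ K)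
    (h : Rel N c K k q) (hk : N (m + 2) + N (m + 2) = k) :
    q (m + 1, m + 1) = 0 ∧ q (m + 1, m + 2) = 0 ∧ q (m + 2, m + 2) = 0 := by
  classical
  have hpos := H.pos (m + 2) (by omega) (by omega)
  have hpos1 := H.pos (m + 1) (by omega) (by omega)
  have hle2 : ∀ b, b ≤ m → N b < N (m + 2) := fun b hb => by
    rcases Nat.eq_zero_or_pos m with hm | hm
    · rw [show b = 0 by omega, H.N0]
      exact hpos.1
    · exact (H.le hb (by omega)).trans_lt (H.two m hm (by omega))
  have hlen : ∀ b, b ≤ n → N b ≤ N (m + 2) := fun b hb => H.le (by omega) (by omega)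
  have hset : (K.filter fun p => N p.1 + N p.2 = k) =
      {(m + 1, m + 1), (m + 1, m + 2), (m + 2, m + 2)} := by
    ext p
    rw [Finset.mem_filter, Finset.mem_insert, Finset.mem_insert, Finset.mem_singleton]
    constructor
    · rintro ⟨h1, h2⟩
      have h3 := hK p h1
      have h4 := hlen p.2 h3.2
      have h5 := hlen p.1 (h3.1.trans h3.2)
      have h6 : ¬ p.2 ≤ m := fun h => by
        have := hle2 _ h
        omega
      have h7 : ¬ p.1 ≤ m := fun h => by
        have := hle2 _ h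
        omega
      rcases (by omega : (p.1 = m + 1 ∧ p.2 = m + 1) ∨ (p.1 = m + 1 ∧ p.2 = m + 2) ∨
        (p.1 = m + 2 ∧ p.2 = m + 2)) with h8 | h8 | h8
      · exact Or.inl (Prod.ext h8.1 h8.2)
      · exact Or.inr (Or.inl (Prod.ext h8.1 h8.2))
      · exact Or.inr (Or.inr (Prod.ext h8.1 h8.2))
    · rintro (h1 | h1 | h1) <;> rw [h1]
      · exact ⟨hK1 _ (by omega) (by omega), by simp only; omega⟩
      · exact ⟨hK2 _ (by omega) (by omega), by simp only; omega⟩
      · exact ⟨hK2 _ (by omega) (by omega), by simp only; omega⟩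
  have hrel : ∀ z : ℂ, q (m + 1, m + 1) * ((c (m + 1) * z).re * (c (m + 1) * z).re) +
      (q (m + 1, m + 2) * ((c (m + 1) * z).re * (c (m + 2) * z).re) +
        q (m + 2, m + 2) * ((c (m + 2) * z).re * (c (m + 2) * z).re)) = 0 := by
    intro z
    obtain ⟨w, hw⟩ := IsAlgClosed.exists_pow_nat_eq z (n := N (m + 2)) (by omega)
    have h1 := h w
    rw [hset, Finset.sum_insert, Finset.sum_pair] at h1
    · unfold fm at h1
      simp only [ht, hw] at h1
      exact h1
    · intro h2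
      have := congrArg Prod.fst h2
      simp at this
    · intro h2
      rw [Finset.mem_insert, Finset.mem_singleton] at h2
      rcases h2 with h2 | h2
      · have := congrArg Prod.snd h2
        simp at this
      · have := congrArg Prod.snd h2
        simp at this
  have hI := H.ind (m + 1) (by omega) (by omega) ht
  have e1 : (c (m + 1) * (Complex.I * conj (c (m + 1)))).re = 0 := by
    simp [Complex.mul_re, Complex.mul_im]
    ring
  have e2 : (c (m + 2) * (Complex.I * conj (c (m + 1)))).re =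
      - (conj (c (m + 1)) * c (m + 1 + 1)).im := by
    simp [Complex.mul_re, Complex.mul_im]
    ring
  have e3 : (c (m + 2) * (Complex.I * conj (c (m + 2)))).re = 0 := by
    simp [Complex.mul_re, Complex.mul_im]
    ring
  have e4 : (c (m + 1) * (Complex.I * conj (c (m + 2)))).re =
      (conj (c (m + 1)) * c (m + 1 + 1)).im := by
    simp [Complex.mul_re, Complex.mul_im]
    ring
  set I := (conj (c (m + 1)) * c (m + 1 + 1)).im with hIdef
  have r1 := hrel (Complex.I * conj (c (m + 1)))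
  rw [e1, e2] at r1
  have q3 : q (m + 2, m + 2) = 0 := by
    have : q (m + 2, m + 2) * (I * I) = 0 := by linear_combination r1
    exact (mul_eq_zero.1 this).resolve_right (mul_ne_zero hI hI)
  have r2 := hrel (Complex.I * conj (c (m + 2)))
  rw [e3, e4] at r2
  have q1 : q (m + 1, m + 1) = 0 := by
    have : q (m + 1, m + 1) * (I * I) = 0 := by linear_combination r2
    exact (mul_eq_zero.1 this).resolve_right (mul_ne_zero hI hI)
  have r3 := hrel (Complex.I * conj (c (m + 1)) + Complex.I * conj (c (m + 2)))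
  rw [mul_add, mul_add, Complex.add_re, Complex.add_re, e1, e2, e3, e4, q1, q3] at r3
  have q2 : q (m + 1, m + 2) = 0 := by
    have : q (m + 1, m + 2) * (I * I) = 0 := by linear_combination -r3
    exact (mul_eq_zero.1 this).resolve_right (mul_ne_zero hI hI)
  exact ⟨q1, q2, q3⟩

end

end Pool.Agent.H24.UC
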