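import Pool.Agent.H24.UC.Core

/-!
# Products of `n + 1` forms: many independent products
-/

set_option autoImplicit false

open scoped ComplexConjugate

noncomputable section

namespace Pool.Agent.H24.UC

open Pool.Agent.H23.UC

/-- the conclusion -/
def Good (n : ℕ) (N : ℕ → ℕ) (c : ℕ → ℂ) (K : Finset (ℕ × ℕ)) : Prop :=
  (∀ p ∈ K, p.1 ≤ p.2 ∧ p.2 ≤ n) ∧ 2 * n + n ^ 2 / 4 + 1 ≤ K.card ∧
    ∀ (k : ℕ) (q : ℕ × ℕ → ℝ), Rel N c K k q → ∀ p ∈ K, N p.1 + N p.2 = k → q p = 0

variable {n : ℕ} {N : ℕ → ℕ} {c : ℕ → ℂ}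

/-- few forms of different orders -/
lemma base (H : Hyp n N c) (hn : n ≤ 2) (hst : n = 2 → N 1 < N 2) : ∃ K, Good n N c K := by
  classical
  have hinj : ∀ a b, a ≤ n → b ≤ n → N a = N b → a = b := by
    intro a b ha hb hab
    by_contra hne
    have key : ∀ a b, a ≤ n → b ≤ n → a < b → N a < N b := by
      intro a b ha hb hlt
      rcases Nat.eq_zero_or_pos a with h0 | h0
      · rw [h0, H.N0]
        exact (H.pos b (by omega) hb).1
      · have h1 : a = 1 := by omega
        have h2 : b = 2 := by omega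
        rw [h1, h2]
        exact hst (by omega)
    rcases lt_or_gt_of_ne hne with h1 | h1
    · have := key a b ha hb h1
      omega
    · have := key b a hb ha h1
      omega
  let K : Finset (ℕ × ℕ) := ((Finset.range (n + 1)) ×ˢ (Finset.range (n + 1))).filter
    fun p => p.1 ≤ p.2
  have hK : ∀ p ∈ K, p.1 ≤ p.2 ∧ p.2 ≤ n := by
    intro p hp
    obtain ⟨h1, h2⟩ := Finset.mem_filter.1 hp
    obtain ⟨h3, h4⟩ := Finset.mem_product.1 h1
    rw [Finset.mem_range] at h3 h4
    exact ⟨h2, by omega⟩
  refine ⟨K, hK, ?_, ?_⟩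
  · rcases (by omega : n = 0 ∨ n = 1 ∨ n = 2) with h | h | h <;> subst h <;> decide
  · intro k q h
    have hlow : ∀ p ∈ K, 1 ≤ p.1 → N p.1 + N p.2 = k → q p = 0 := by
      rintro ⟨a, b⟩ hp ha hk
      simp only at ha hk
      have hab := hK _ hp
      simp only at hab
      rcases hab.1.lt_or_eq with h1 | h1
      · refine low1 H hK h hp ha ?_ hk fun p hp' h2 _ => ?_
        · refine lt_of_le_of_ne (H.le hab.1 hab.2) fun h2 => ?_
          have := hinj a b (by omega) (by omega) h2
          omega
        · exact hinj _ _ ((hK p hp').1.trans (hK p hp').2) (by omega) h2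
      · subst h1
        refine low3 H hK h hp ha hk fun p hp' h2 h3 => ?_
        exact Prod.ext (hinj _ _ ((hK p hp').1.trans (hK p hp').2) (by omega) h2)
          (hinj _ _ (hK p hp').2 (by omega) h3)
    rintro ⟨a, b⟩ hp hk
    rcases Nat.eq_zero_or_pos a with h0 | h0
    · subst h0
      simp only [H.N0, zero_add] at hk
      exact zero H hK h hp hk hlow
    · exact hlow _ hp h0 hk

/-- the representatives of the classes -/
def Rp (N : ℕ → ℕ) (m : ℕ) : Finset ℕ := (Finset.Icc 1 m).filter fun a => N (a - 1) < N a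

lemma mem_Rp {m a : ℕ} : a ∈ Rp N m ↔ (1 ≤ a ∧ a ≤ m) ∧ N (a - 1) < N a := by
  rw [Rp, Finset.mem_filter, Finset.mem_Icc]

/-- the number of the lower pairs -/
lemma low_count (H : Hyp n N c) (m : ℕ) : m ≤ n →
    ∃ (L : Finset (ℕ × ℕ)) (r s : ℕ), (Rp N m).card = r ∧ r + s = m ∧ s ≤ r ∧
      (1 ≤ m → N (m - 1) < N m → s + 1 ≤ r) ∧
      (∀ p ∈ L, 1 ≤ p.1 ∧ p.1 ≤ p.2 ∧ p.2 ≤ m ∧ N (p.1 - 1) < N p.1 ∧
        (N p.1 < N p.2 ∨ p.1 = p.2)) ∧ r ^ 2 + r + s ^ 2 ≤ 2 * L.card + s := by
  classical
  induction m with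
  | zero =>
    intro _
    exact ⟨∅, 0, 0, by simp [Rp], rfl, le_rfl, fun h => absurd h (by omega), by simp, by simp⟩
  | succ m ih =>
    intro hm
    obtain ⟨L, r, s, h1, h2, h3, h4, h5, h6⟩ := ih (by omega)
    have hLm : ∀ p ∈ L, p.2 ≠ m + 1 := fun p hp h => by
      have := (h5 p hp).2.2.1
      omega
    have hdisj : ∀ S : Finset ℕ, Disjoint L (S.image fun a => (a, m + 1)) := by
      intro S
      rw [Finset.disjoint_left]
      intro p hp hp'
      obtain ⟨a, -, rfl⟩ := Finset.mem_image.1 hp'
      exact hLm _ hp rfl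
    have hcard : ∀ S : Finset ℕ, (S.image fun a => (a, m + 1)).card = S.card := fun S =>
      Finset.card_image_of_injective _ fun a b hab => congrArg Prod.fst hab
    by_cases hrep : N m < N (m + 1)
    · have hR : Rp N (m + 1) = insert (m + 1) (Rp N m) := by
        ext a
        rw [Finset.mem_insert, mem_Rp, mem_Rp]
        constructor
        · rintro ⟨h7, h8⟩
          by_cases h9 : a = m + 1
          · exact Or.inl h9
          · exact Or.inr ⟨⟨h7.1, by omega⟩, h8⟩
        · rintro (h7 | h7)
          · subst h7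
            exact ⟨⟨by omega, le_rfl⟩, hrep⟩
          · exact ⟨⟨h7.1.1, by omega⟩, h7.2⟩
      have hRc : (Rp N (m + 1)).card = r + 1 := by
        rw [hR, Finset.card_insert_of_notMem, h1]
        intro h7
        have := (mem_Rp.1 h7).1.2
        omega
      refine ⟨L ∪ (Rp N (m + 1)).image (fun a => (a, m + 1)), r + 1, s, hRc, by omega, by omega,
        fun _ _ => by omega, ?_, ?_⟩
      · intro p hp
        rcases Finset.mem_union.1 hp with hp | hp
        · have := h5 p hp
          exact ⟨this.1, this.2.1, by omega, this.2.2.2⟩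
        · obtain ⟨a, ha, rfl⟩ := Finset.mem_image.1 hp
          obtain ⟨h7, h8⟩ := mem_Rp.1 ha
          refine ⟨h7.1, h7.2, le_rfl, h8, ?_⟩
          show N a < N (m + 1) ∨ a = m + 1
          by_cases h9 : a = m + 1
          · exact Or.inr h9
          · exact Or.inl ((H.le (by omega : a ≤ m) (by omega)).trans_lt hrep)
      · rw [Finset.card_union_of_disjoint (hdisj _), hcard, hRc]
        nlinarith
    · have hle := H.le (Nat.le_succ m) hm
      have heq : N m = N (m + 1) := by
        have : N m ≤ N (m + 1) := hle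
        omega
      have hm1 : 1 ≤ m := by
        by_contra h7
        rw [show m = 0 by omega, H.N0] at heq
        have := (H.pos (0 + 1) (by omega) (by omega)).1
        omega
      have hrm : N (m - 1) < N m := by
        rcases Nat.eq_zero_or_pos (m - 1) with h7 | h7
        · rw [h7, H.N0]
          exact (H.pos m hm1 (by omega)).1
        · have := H.two (m - 1) h7 (by omega)
          rw [show m - 1 + 2 = m + 1 by omega] at this
          omega
      have hR : Rp N (m + 1) = Rp N m := by
        ext a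
        rw [mem_Rp, mem_Rp]
        constructor
        · rintro ⟨h7, h8⟩
          refine ⟨⟨h7.1, ?_⟩, h8⟩
          by_contra h9
          have h10 : a = m + 1 := by omega
          subst h10
          exact hrep h8
        · rintro ⟨h7, h8⟩
          exact ⟨⟨h7.1, by omega⟩, h8⟩
      have hmem : m ∈ Rp N m := mem_Rp.2 ⟨⟨hm1, le_rfl⟩, hrm⟩
      have h4' := h4 hm1 hrm
      have hRc : ((Rp N m).erase m).card = r - 1 := by
        rw [Finset.card_erase_of_mem hmem, h1]
      refine ⟨L ∪ ((Rp N m).erase m).image (fun a => (a, m + 1)), r, s + 1, by rw [hR, h1],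
        by omega, h4', fun _ h7 => absurd h7 hrep, ?_, ?_⟩
      · intro p hp
        rcases Finset.mem_union.1 hp with hp | hp
        · have := h5 p hp
          exact ⟨this.1, this.2.1, by omega, this.2.2.2⟩
        · obtain ⟨a, ha, rfl⟩ := Finset.mem_image.1 hp
          obtain ⟨h9, ha⟩ := Finset.mem_erase.1 ha
          obtain ⟨h7, h8⟩ := mem_Rp.1 ha
          refine ⟨h7.1, by show a ≤ m + 1; omega, le_rfl, h8, Or.inl ?_⟩
          show N a < N (m + 1)
          have h10 : N a ≤ N (m - 1) := H.le (by omega) (by omega)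
          omega
      · rw [Finset.card_union_of_disjoint (hdisj _), hcard, hRc]
        obtain ⟨r', rfl⟩ : ∃ r', r = r' + 1 := ⟨r - 1, by omega⟩
        rw [Nat.add_sub_cancel]
        nlinarith

/-- the last two forms have the same order -/
lemma double (m : ℕ) (H : Hyp (m + 2) N c) (ht : N (m + 1) = N (m + 2)) :
    ∃ K, Good (m + 2) N c K := by
  classical
  obtain ⟨L, r, s, -, h2, h3, -, h5, h6⟩ := low_count H m (by omega)
  have hLc : m ^ 2 / 4 ≤ L.card := by
    have : m ^ 2 ≤ 4 * L.card := by
      rw [← h2]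
      nlinarith [sq_nonneg ((r : ℤ) - s), mul_self_nonneg ((r : ℤ) - s), Nat.sub_add_cancel h3,
        show 2 * r * s ≤ r ^ 2 + s ^ 2 by
          zify
          nlinarith [sq_nonneg ((r : ℤ) - s)]]
    omega
  let Z : Finset (ℕ × ℕ) := (Finset.range (m + 3)).image fun b => (0, b)
  let T1 : Finset (ℕ × ℕ) := (Finset.Icc 1 (m + 1)).image fun a => (a, m + 1)
  let T2 : Finset (ℕ × ℕ) := (Finset.Icc 1 (m + 2)).image fun a => (a, m + 2)
  let K : Finset (ℕ × ℕ) := ((Z ∪ L) ∪ T1) ∪ T2
  have hZ : ∀ p, p ∈ Z ↔ p.1 = 0 ∧ p.2 ≤ m + 2 := by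
    rintro ⟨a, b⟩
    constructor
    · intro h
      obtain ⟨b', hb', hb2⟩ := Finset.mem_image.1 h
      rw [Finset.mem_range] at hb'
      have e1 := congrArg Prod.fst hb2
      have e2 := congrArg Prod.snd hb2
      simp only at e1 e2
      exact ⟨e1.symm, by show b ≤ m + 2; omega⟩
    · rintro ⟨h1, h2⟩
      simp only at h1 h2
      subst h1
      exact Finset.mem_image.2 ⟨b, Finset.mem_range.2 (by omega), rfl⟩
  have hT1 : ∀ p, p ∈ T1 ↔ (1 ≤ p.1 ∧ p.1 ≤ m + 1) ∧ p.2 = m + 1 := by
    rintro ⟨a, b⟩
    constructor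
    · intro h
      obtain ⟨a', ha', hb2⟩ := Finset.mem_image.1 h
      rw [Finset.mem_Icc] at ha'
      have e1 := congrArg Prod.fst hb2
      have e2 := congrArg Prod.snd hb2
      simp only at e1 e2
      subst e1
      exact ⟨ha', e2.symm⟩
    · rintro ⟨h1, h2⟩
      simp only at h1 h2
      subst h2
      exact Finset.mem_image.2 ⟨a, Finset.mem_Icc.2 h1, rfl⟩
  have hT2 : ∀ p, p ∈ T2 ↔ (1 ≤ p.1 ∧ p.1 ≤ m + 2) ∧ p.2 = m + 2 := by
    rintro ⟨a, b⟩
    constructor
    · intro h
      obtain ⟨a', ha', hb2⟩ := Finset.mem_image.1 h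
      rw [Finset.mem_Icc] at ha'
      have e1 := congrArg Prod.fst hb2
      have e2 := congrArg Prod.snd hb2
      simp only at e1 e2
      subst e1
      exact ⟨ha', e2.symm⟩
    · rintro ⟨h1, h2⟩
      simp only at h1 h2
      subst h2
      exact Finset.mem_image.2 ⟨a, Finset.mem_Icc.2 h1, rfl⟩
  have hKm : ∀ p, p ∈ K ↔ ((p ∈ Z ∨ p ∈ L) ∨ p ∈ T1) ∨ p ∈ T2 := fun p => by
    rw [Finset.mem_union, Finset.mem_union, Finset.mem_union]
  have hK : ∀ p ∈ K, p.1 ≤ p.2 ∧ p.2 ≤ m + 2 := by
    intro p hp
    rcases (hKm p).1 hp with ((hp | hp) | hp) | hp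
    · have := (hZ p).1 hp
      omega
    · have := h5 p hp
      omega
    · have := (hT1 p).1 hp
      omega
    · have := (hT2 p).1 hp
      omega
  refine ⟨K, hK, ?_, ?_⟩
  · -- the number of elements
    have d1 : Disjoint Z L := by
      rw [Finset.disjoint_left]
      intro p hp hp'
      have e1 := (hZ p).1 hp
      have e2 := h5 p hp'
      omega
    have d2 : Disjoint (Z ∪ L) T1 := by
      rw [Finset.disjoint_left]
      intro p hp hp'
      have e3 := (hT1 p).1 hp'
      rcases Finset.mem_union.1 hp with hp | hp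
      · have e1 := (hZ p).1 hp
        omega
      · have e2 := h5 p hp
        omega
    have d3 : Disjoint ((Z ∪ L) ∪ T1) T2 := by
      rw [Finset.disjoint_left]
      intro p hp hp'
      have e4 := (hT2 p).1 hp'
      rcases Finset.mem_union.1 hp with hp | hp
      · rcases Finset.mem_union.1 hp with hp | hp
        · have e1 := (hZ p).1 hp
          omega
        · have e2 := h5 p hp
          omega
      · have e3 := (hT1 p).1 hp
        omega
    have c1 : Z.card = m + 3 := by
      show ((Finset.range (m + 3)).image fun b => (0, b)).card = m + 3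
      rw [Finset.card_image_of_injective _ fun a b hab => congrArg Prod.snd hab,
        Finset.card_range]
    have c2 : T1.card = m + 1 := by
      show ((Finset.Icc 1 (m + 1)).image fun a => (a, m + 1)).card = m + 1
      rw [Finset.card_image_of_injective _ fun a b hab => congrArg Prod.fst hab, Nat.card_Icc]
      omega
    have c3 : T2.card = m + 2 := by
      show ((Finset.Icc 1 (m + 2)).image fun a => (a, m + 2)).card = m + 2
      rw [Finset.card_image_of_injective _ fun a b hab => congrArg Prod.fst hab, Nat.card_Icc]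
      omega
    have c4 : K.card = (m + 3) + L.card + (m + 1) + (m + 2) := by
      rw [Finset.card_union_of_disjoint d3, Finset.card_union_of_disjoint d2,
        Finset.card_union_of_disjoint d1, c1, c2, c3]
    have c5 : (m + 2) ^ 2 / 4 = m ^ 2 / 4 + m + 1 := by
      have : (m + 2) ^ 2 = m ^ 2 + (m + 1) * 4 := by ring
      rw [this, Nat.add_mul_div_right _ _ (by norm_num)]
      ring
    rw [c4, c5]
    omega
  · intro k q h
    have hle2 : ∀ b, b ≤ m → N b < N (m + 2) := fun b hb => by
      rcases Nat.eq_zero_or_pos m with hm | hm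
      · rw [show b = 0 by omega, H.N0]
        exact (H.pos (m + 2) (by omega) le_rfl).1
      · exact (H.le hb (by omega)).trans_lt (H.two m hm le_rfl)
    have hlen : ∀ b, b ≤ m + 2 → N b ≤ N (m + 2) := fun b hb => H.le hb le_rfl
    have hrep : ∀ a a', 1 ≤ a → a ≤ m + 2 → N (a - 1) < N a → 1 ≤ a' → a' ≤ m + 2 →
        N (a' - 1) < N a' → N a = N a' → a = a' := by
      intro a a' h1 h2 h3 h4 h5 h6 h7
      rcases lt_trichotomy a a' with h8 | h8 | h8
      · have := H.le (show a ≤ a' - 1 by omega) (by omega)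
        omega
      · exact h8
      · have := H.le (show a' ≤ a - 1 by omega) (by omega)
        omega
    -- the lower pairs
    have hlow : ∀ p ∈ K, 1 ≤ p.1 → p.2 ≤ m → N p.1 + N p.2 = k → q p = 0 := by
      rintro ⟨a, b⟩ hp ha hb hk
      simp only at ha hb hk
      have hpL : (a, b) ∈ L := by
        rcases (hKm _).1 hp with ((hp | hp) | hp) | hp
        · have := ((hZ _).1 hp).1
          simp only at this
          omega
        · exact hp
        · have := ((hT1 _).1 hp).2
          simp only at this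
          omega
        · have := ((hT2 _).1 hp).2
          simp only at this
          omega
      obtain ⟨-, h8, -, h9, h10⟩ := h5 _ hpL
      simp only at h8 h9 h10
      have haN := (H.pos a ha (by omega)).1
      -- the pairs with the same orders are lower pairs
      have hL' : ∀ p ∈ K, N p.1 = N a → N p.2 = N b → p ∈ L := by
        intro p hp h11 h12
        rcases (hKm _).1 hp with ((hp | hp) | hp) | hp
        · rw [((hZ _).1 hp).1, H.N0] at h11
          omega
        · exact hp
        · have := hle2 b hb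
          rw [((hT1 _).1 hp).2, ht] at h12
          omega
        · have := hle2 b hb
          rw [((hT2 _).1 hp).2] at h12
          omega
      rcases h10 with h10 | h10
      · refine low1 H hK h hp ha h10 hk fun p hp h11 h12 => ?_
        obtain ⟨e1, e2, e3, e4, -⟩ := h5 p (hL' p hp h11 h12)
        exact hrep _ _ e1 (by omega) e4 ha (by omega) h9 h11
      · subst h10
        refine low3 H hK h hp ha hk fun p hp h11 h12 => ?_
        obtain ⟨e1, e2, e3, e4, e5⟩ := h5 p (hL' p hp h11 h12)
        have e6 := hrep _ _ e1 (by omega) e4 ha (by omega) h9 h11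
        rcases e5 with e5 | e5
        · omega
        · exact Prod.ext e6 (e5.symm.trans e6)
    have hK1 : ∀ a, 1 ≤ a → a ≤ m + 1 → (a, m + 1) ∈ K := fun a h1 h2 =>
      (hKm _).2 (Or.inl (Or.inr ((hT1 _).2 ⟨⟨h1, h2⟩, rfl⟩)))
    have hK2 : ∀ a, 1 ≤ a → a ≤ m + 2 → (a, m + 2) ∈ K := fun a h1 h2 =>
      (hKm _).2 (Or.inr ((hT2 _).2 ⟨⟨h1, h2⟩, rfl⟩))
    have hpos : ∀ p ∈ K, 1 ≤ p.1 → N p.1 + N p.2 = k → q p = 0 := by
      rintro ⟨a, b⟩ hp ha hk
      simp only at ha hk
      by_cases hb : b ≤ m
      · exact hlow _ hp ha hb hk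
      · have hab := hK _ hp
        simp only at hab
        have hNb : N b = N (m + 2) := by
          rcases (by omega : b = m + 1 ∨ b = m + 2) with h1 | h1 <;> rw [h1]
          exact ht
        by_cases ham : a ≤ m
        · have := top H rfl ht hK hK1 hK2 h ha ham (by omega) hlow
          rcases (by omega : b = m + 1 ∨ b = m + 2) with h1 | h1 <;> rw [h1]
          · exact this.1
          · exact this.2
        · have hNa : N a = N (m + 2) := by
            rcases (by omega : a = m + 1 ∨ a = m + 2) with h1 | h1 <;> rw [h1]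
            exact ht
          have := top3 H rfl ht hK hK1 hK2 h (by omega)
          rcases (by omega : (a = m + 1 ∧ b = m + 1) ∨ (a = m + 1 ∧ b = m + 2) ∨
            (a = m + 2 ∧ b = m + 2)) with h1 | h1 | h1 <;> rw [h1.1, h1.2]
          · exact this.1
          · exact this.2.1
          · exact this.2.2
    rintro ⟨a, b⟩ hp hk
    rcases Nat.eq_zero_or_pos a with h0 | h0
    · subst h0
      simp only [H.N0, zero_add] at hk
      exact zero H hK h hp hk hpos
    · exact hpos _ hp h0 hk

lemma Hyp.mono_n {n' : ℕ} (H : Hyp n N c) (h : n' ≤ n) : Hyp n' N c where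
  N0 := H.N0
  c0 := H.c0
  pos a h1 h2 := H.pos a h1 (h2.trans h)
  mono a b h1 h2 h3 := H.mono a b h1 h2 (h3.trans h)
  two a h1 h2 := H.two a h1 (h2.trans h)
  ind a h1 h2 h3 := H.ind a h1 (h2.trans h) h3

/-- the last form has a new order -/
lemma single (m : ℕ) (hm : 2 ≤ m) (H : Hyp (m + 1) N c) (hlt : N m < N (m + 1))
    (hK' : ∃ K, Good m N c K) : ∃ K, Good (m + 1) N c K := by
  classical
  obtain ⟨K', h1, h2, h3⟩ := hK'
  let T : Finset (ℕ × ℕ) := (Finset.Icc 1 (m + 1)).image fun a => (a, m + 1)
  have hT : ∀ p, p ∈ T ↔ (1 ≤ p.1 ∧ p.1 ≤ m + 1) ∧ p.2 = m + 1 := by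
    rintro ⟨a, b⟩
    constructor
    · intro h
      obtain ⟨a', ha', hb2⟩ := Finset.mem_image.1 h
      rw [Finset.mem_Icc] at ha'
      have e1 := congrArg Prod.fst hb2
      have e2 := congrArg Prod.snd hb2
      simp only at e1 e2
      subst e1
      exact ⟨ha', e2.symm⟩
    · rintro ⟨h1, h2⟩
      simp only at h1 h2
      subst h2
      exact Finset.mem_image.2 ⟨a, Finset.mem_Icc.2 h1, rfl⟩
  have hK : ∀ p ∈ K' ∪ T, p.1 ≤ p.2 ∧ p.2 ≤ m + 1 := by
    intro p hp
    rcases Finset.mem_union.1 hp with hp | hp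
    · have := h1 p hp
      omega
    · have := (hT p).1 hp
      omega
  refine ⟨K' ∪ T, hK, ?_, ?_⟩
  · have d : Disjoint K' T := by
      rw [Finset.disjoint_left]
      intro p hp hp'
      have e1 := h1 p hp
      have e2 := (hT p).1 hp'
      omega
    have c2 : T.card = m + 1 := by
      show ((Finset.Icc 1 (m + 1)).image fun a => (a, m + 1)).card = m + 1
      rw [Finset.card_image_of_injective _ fun a b hab => congrArg Prod.fst hab, Nat.card_Icc]
      omega
    rw [Finset.card_union_of_disjoint d, c2]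
    have c3 : (m + 1) ^ 2 / 4 + 1 ≤ m ^ 2 / 4 + m := by
      obtain ⟨j, hj | hj⟩ : ∃ j, m = 2 * j ∨ m = 2 * j + 1 := ⟨m / 2, by omega⟩
      · have e1 : (m + 1) ^ 2 = 1 + (j ^ 2 + j) * 4 := by rw [hj]; ring
        have e2 : m ^ 2 = 0 + j ^ 2 * 4 := by rw [hj]; ring
        rw [e1, e2, Nat.add_mul_div_right _ _ (by norm_num), Nat.add_mul_div_right _ _ (by norm_num)]
        omega
      · have e1 : (m + 1) ^ 2 = 0 + (j ^ 2 + 2 * j + 1) * 4 := by rw [hj]; ring
        have e2 : m ^ 2 = 1 + (j ^ 2 + j) * 4 := by rw [hj]; ring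
        rw [e1, e2, Nat.add_mul_div_right _ _ (by norm_num), Nat.add_mul_div_right _ _ (by norm_num)]
        omega
    omega
  · intro k q h
    have hTz : ∀ p ∈ T, N p.1 + N p.2 = k → q p = 0 := by
      rintro ⟨a, b⟩ hp hk
      obtain ⟨⟨ha, ha2⟩, hb⟩ := (hT _).1 hp
      simp only at ha ha2 hb hk
      subst hb
      have hmem : ∀ p ∈ K' ∪ T, N p.2 = N (m + 1) → p.2 = m + 1 := by
        intro p hp h4
        have h5 := (hK p hp).2
        by_contra h6
        have := H.le (show p.2 ≤ m by omega) (by omega)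
        omega
      by_cases ham : a = m + 1
      · subst ham
        refine low3 H hK h (Finset.mem_union_right _ hp) ha hk fun p hp h4 h5 => ?_
        have h6 := hmem p hp h5
        have h7 := (hK p hp).1
        refine Prod.ext ?_ h6
        show p.1 = m + 1
        by_contra h8
        have := H.le (show p.1 ≤ m by omega) (by omega)
        omega
      · have h4 : N a < N (m + 1) := (H.le (show a ≤ m by omega) (by omega)).trans_lt hlt
        exact low2 H hK h (Finset.mem_union_right _ hp) ha h4 hk fun p hp _ h5 => hmem p hp h5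
    have hrel : Rel N c K' k q := by
      intro w
      rw [← h w, Finset.filter_union, Finset.sum_union]
      · have : ∑ p ∈ T with N p.1 + N p.2 = k, q p * (fm N c p.1 w * fm N c p.2 w) = 0 := by
          refine Finset.sum_eq_zero fun p hp => ?_
          rw [hTz p (Finset.mem_filter.1 hp).1 (Finset.mem_filter.1 hp).2, zero_mul]
        rw [this, add_zero]
      · rw [Finset.disjoint_left]
        intro p hp hp'
        have e1 := h1 p (Finset.mem_filter.1 hp).1
        have e2 := (hT p).1 (Finset.mem_filter.1 hp').1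
        omega
    intro p hp hk
    rcases Finset.mem_union.1 hp with hp | hp
    · exact h3 k q hrel p hp hk
    · exact hTz p hp hk

theorem main (n : ℕ) : Hyp n N c → ∃ K, Good n N c K := by
  induction n with
  | zero => exact fun H => base H (by omega) (fun h => absurd h (by omega))
  | succ m ih =>
    intro H
    rcases Nat.eq_zero_or_pos m with hm | hm
    · exact base H (by omega) (fun h => absurd h (by omega))
    · have hle : N m ≤ N (m + 1) := H.le (Nat.le_succ m) le_rfl
      rcases hle.lt_or_eq with hlt | heq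
      · rcases (by omega : m = 1 ∨ 2 ≤ m) with h1 | h1
        · subst h1
          exact base H (by omega) (fun _ => hlt)
        · exact single m h1 H hlt (ih (H.mono_n (Nat.le_succ m)))
      · obtain ⟨m', rfl⟩ : ∃ m', m = m' + 1 := ⟨m - 1, by omega⟩
        exact double m' H heq

/-- `LR-CORE` -/
theorem stCore : Pool.Agent.H23.UC.StCore := by
  intro n N c hN0 hc0 hpos hmono htwo hind
  exact main n ⟨hN0, hc0, hpos, hmono, htwo, hind⟩

end Pool.Agent.H24.UC
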